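import Mathlib
import Pool.Agent.H744R2.KZ.Props
import Pool.Agent.H226R2.Kad4.Dix
import Pool.Agent.H445R2.Kad4.Range

/-!
Task X_step of helper744: one step of Dixmier averaging in a von Neumann algebra.
-/

open scoped ComplexOrder InnerProductSpace ComplexConjugate Topology
open Finset Filter

noncomputable section

namespace H744R2.KZ

open H759R2.Kad

universe u

namespace XstepAux

variable {A : Type u} [CStarAlgebra A] [PartialOrder A] [StarOrderedRing A]

/-- multiplication by a central projection is monotone -/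
theorem cmul_mono {z x y : A} (hz : star z = z) (hzz : z * z = z) (hc : ∀ a, z * a = a * z)
    (h : x ≤ y) : z * x ≤ z * y := by
  have h1 := star_left_conjugate_le_conjugate h z
  have e : ∀ a : A, star z * a * z = z * a := by
    intro a
    rw [hz, mul_assoc, ← hc a, ← mul_assoc, hzz]
  rwa [e, e] at h1

theorem norm_le_of {y : A} (hs : IsSelfAdjoint y) {r : ℝ}
    (h1 : -(r • (1 : A)) ≤ y) (h2 : y ≤ r • (1 : A)) (hr : 0 ≤ r) : ‖y‖ ≤ r := by
  rcases subsingleton_or_nontrivial A with h | h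
  · rw [Subsingleton.elim y 0, norm_zero]
    exact hr
  · rw [← Algebra.algebraMap_eq_smul_one, ← map_neg] at h1
    rw [← Algebra.algebraMap_eq_smul_one] at h2
    rw [algebraMap_le_iff_le_spectrum hs] at h1
    rw [le_algebraMap_iff_spectrum_le hs] at h2
    rcases CStarAlgebra.norm_or_neg_norm_mem_spectrum hs with h6 | h6
    · exact h2 _ h6
    · have := h1 _ h6
      linarith

theorem xstep (HR : ∀ b : A, ∃ p : A, star p = p ∧ p * p = p ∧ p * b = b ∧
      ∀ x : A, x * b = 0 → x * p = 0)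
    (HC : ∀ p q : A, star p = p → p * p = p → star q = q → q * q = q →
      ∃ z v w : A, star z = z ∧ z * z = z ∧ (∀ a, z * a = a * z) ∧ star v * v = z * p ∧
        z * q * v = v ∧ star w * w = (1 - z) * q ∧ (1 - z) * p * w = w)
    {h : A} (hh : IsSelfAdjoint h) :
    ∃ u : A, star u = u ∧ u * u = 1 ∧ ∃ c : A, star c = c ∧ (∀ b, c * b = b * c) ∧
      ‖(2 : ℝ)⁻¹ • (h + u * h * u) - c‖ ≤ 3 / 4 * ‖h‖ := by
  rcases subsingleton_or_nontrivial A with hA | hA
  · exact ⟨1, Subsingleton.elim _ _, Subsingleton.elim _ _, 0, Subsingleton.elim _ _,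
      fun b => Subsingleton.elim _ _, by
        rw [Subsingleton.elim ((2 : ℝ)⁻¹ • (h + 1 * h * 1) - 0) (0 : A), norm_zero]
        positivity⟩
  set δ : ℝ := ‖h‖ with hδ
  have hδ0 : 0 ≤ δ := norm_nonneg h
  have h1 : -(δ • (1 : A)) ≤ h := by
    rw [← Algebra.algebraMap_eq_smul_one]
    exact hh.neg_algebraMap_norm_le_self
  have h2 : h ≤ δ • (1 : A) := by
    rw [← Algebra.algebraMap_eq_smul_one]
    exact hh.le_algebraMap_norm_self
  -- the spectral projection (as in helper226's proof)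
  obtain ⟨p, hp, hpp, hpb, hx⟩ := HR h⁺
  have hb0 : 0 ≤ h⁺ := CFC.posPart_nonneg h
  have hn0 : 0 ≤ h⁻ := CFC.negPart_nonneg h
  have hbs : star h⁺ = h⁺ := (IsSelfAdjoint.of_nonneg hb0)
  have hns : star h⁻ = h⁻ := (IsSelfAdjoint.of_nonneg hn0)
  have hbp : h⁺ * p = h⁺ := by
    have := congrArg star hpb
    rwa [star_mul, hp, hbs] at this
  have hnp : h⁻ * p = 0 := hx _ (CFC.negPart_mul_posPart h)
  have hpn : p * h⁻ = 0 := by
    have := congrArg star hnp
    rwa [star_mul, hp, hns, star_zero] at this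
  have hdec : h⁺ - h⁻ = h := CFC.posPart_sub_negPart h hh
  have hA' : h ≤ δ • p := by
    have e1 : p * h * p = h⁺ := by
      calc p * h * p = p * (h⁺ - h⁻) * p := by rw [hdec]
        _ = p * h⁺ * p - p * h⁻ * p := by noncomm_ring
        _ = h⁺ := by rw [hpb, hbp, hpn, zero_mul, sub_zero]
    have e2 := star_left_conjugate_le_conjugate h2 p
    rw [hp, e1, mul_smul_comm, smul_mul_assoc, mul_one, hpp] at e2
    refine le_trans ?_ e2
    calc h = h⁺ - h⁻ := hdec.symm
      _ ≤ h⁺ := sub_le_self _ hn0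
  have hB : -h ≤ δ • (1 - p) := by
    have e1 : (1 - p) * (-h) * (1 - p) = h⁻ := by
      calc (1 - p) * (-h) * (1 - p) = (1 - p) * (-(h⁺ - h⁻)) * (1 - p) := by rw [hdec]
        _ = -(h⁺ - p * h⁺ - (h⁺ * p) + p * (h⁺ * p)) +
            (h⁻ - p * h⁻ - (h⁻ * p) + p * (h⁻ * p)) := by noncomm_ring
        _ = h⁻ := by rw [hbp, hpb, hnp, hpn, mul_zero]; abel
    have e0 : -h ≤ δ • (1 : A) := by
      have := neg_le_neg h1
      rwa [neg_neg] at this
    have e2 := star_left_conjugate_le_conjugate e0 (1 - p)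
    have e3 : (1 - p) * (1 - p) = 1 - p := by
      have : (1 - p) * (1 - p) = 1 - p - p + p * p := by noncomm_ring
      rw [this, hpp]; abel
    rw [star_sub, star_one, hp, e1, mul_smul_comm, smul_mul_assoc, mul_one, e3] at e2
    refine le_trans ?_ e2
    calc -h = h⁻ - h⁺ := by rw [← neg_sub h⁺ h⁻, hdec]
      _ ≤ h⁻ := sub_le_self _ hb0
  have hq : star (1 - p) = 1 - p := by rw [star_sub, star_one, hp]
  have hqq : (1 - p) * (1 - p) = 1 - p := by
    have : (1 - p) * (1 - p) = 1 - p - p + p * p := by noncomm_ring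
    rw [this, hpp]; abel
  have hpq : p * (1 - p) = 0 := by rw [mul_sub, mul_one, hpp, sub_self]
  have hqp : (1 - p) * p = 0 := by rw [sub_mul, one_mul, hpp, sub_self]
  obtain ⟨z, v, w, hz, hzz, hzc, hv1, hv2, hw1, hw2⟩ := HC p (1 - p) hp hpp hq hqq
  set q : A := 1 - p with hqdef
  set z' : A := 1 - z with hz'def
  have hz' : star z' = z' := by rw [hz'def, star_sub, star_one, hz]
  have hz'z' : z' * z' = z' := by
    have : (1 - z) * (1 - z) = 1 - z - z + z * z := by noncomm_ring
    rw [hz'def, this, hzz]; abel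
  have hzz' : z * z' = 0 := by rw [hz'def, mul_sub, mul_one, hzz, sub_self]
  have hz'z : z' * z = 0 := by rw [hz'def, sub_mul, one_mul, hzz, sub_self]
  have hz'c : ∀ a, z' * a = a * z' := by
    intro a
    rw [hz'def, sub_mul, one_mul, mul_sub, mul_one, hzc a]
  -- `v` lives over `z`, `w` over `z'`
  have hzv : z * v = v := by
    calc z * v = z * (z * q * v) := by rw [hv2]
      _ = z * z * q * v := by noncomm_ring
      _ = v := by rw [hzz, hv2]
  have hz'w : z' * w = w := by
    calc z' * w = z' * (z' * p * w) := by rw [hw2]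
      _ = z' * z' * p * w := by noncomm_ring
      _ = w := by rw [hz'z', hw2]
  have hz'v : z' * v = 0 := by
    calc z' * v = z' * (z * v) := by rw [hzv]
      _ = z' * z * v := by rw [mul_assoc]
      _ = 0 := by rw [hz'z, zero_mul]
  have hzw : z * w = 0 := by
    calc z * w = z * (z' * w) := by rw [hz'w]
      _ = z * z' * w := by rw [mul_assoc]
      _ = 0 := by rw [hzz', zero_mul]
  have hpv : p * v = 0 := by
    calc p * v = p * (z * q * v) := by rw [hv2]
      _ = (p * z) * q * v := by noncomm_ring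
      _ = z * (p * q) * v := by rw [← hzc p]; noncomm_ring
      _ = 0 := by rw [hpq, mul_zero, zero_mul]
  have hqw : q * w = 0 := by
    calc q * w = q * (z' * p * w) := by rw [hw2]
      _ = (q * z') * p * w := by noncomm_ring
      _ = z' * (q * p) * w := by rw [← hz'c q]; noncomm_ring
      _ = 0 := by rw [hqp, mul_zero, zero_mul]
  have hvw : star v * w = 0 := by
    calc star v * w = star (z * v) * w := by rw [hzv]
      _ = star v * (z * w) := by rw [star_mul, hz, mul_assoc]
      _ = 0 := by rw [hzw, mul_zero]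
  have hwv : star w * v = 0 := by
    have := congrArg star hvw
    rwa [star_mul, star_star, star_zero] at this
  -- the combined projection and partial isometry
  set P : A := z * p + z' * q with hP
  set V : A := v + w with hV
  have hPs : star P = P := by
    rw [hP, star_add, star_mul, star_mul, hz, hz', hp, hq, ← hzc, ← hz'c]
  have hPP : P * P = P := by
    have e : P * P = z * (p * z) * p + z * (p * z') * q + z' * (q * z) * p + z' * (q * z') * q := by
      rw [hP]; noncomm_ring
    rw [e, ← hzc p, ← hz'c p, ← hzc q, ← hz'c q]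
    have e1 : z * (z * p) * p = (z * z) * (p * p) := by noncomm_ring
    have e2 : z * (z' * p) * q = (z * z') * (p * q) := by noncomm_ring
    have e3 : z' * (z * q) * p = (z' * z) * (q * p) := by noncomm_ring
    have e4 : z' * (z' * q) * q = (z' * z') * (q * q) := by noncomm_ring
    rw [e1, e2, e3, e4, hzz, hpp, hzz', hz'z, hz'z', hqq, zero_mul, zero_mul, add_zero, add_zero]
  have hVV : star V * V = P := by
    have e : star V * V = star v * v + star v * w + star w * v + star w * w := by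
      rw [hV, star_add]; noncomm_ring
    rw [e, hvw, hwv, hv1, hw1, add_zero, add_zero]
  have hPV : P * V = 0 := by
    have e : P * V = z * (p * v) + z * (p * w) + z' * (q * v) + z' * (q * w) := by
      rw [hP, hV]; noncomm_ring
    have e1 : z * (p * w) = p * (z * w) := by
      rw [← mul_assoc, hzc p, mul_assoc]
    have e2 : z' * (q * v) = q * (z' * v) := by
      rw [← mul_assoc, hz'c q, mul_assoc]
    rw [e, e1, e2, hpv, hzw, hz'v, hqw]
    simp
  have hPV' : (1 - P) * V = V := by rw [sub_mul, one_mul, hPV, sub_zero]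
  -- the flipped element
  set h' : A := z * h - z' * h with hh'
  have l1 : -(δ • (1 : A)) ≤ h' := by
    have a1 := cmul_mono hz hzz hzc h1
    have a2 := cmul_mono hz' hz'z' hz'c h2
    have a3 := add_le_add a1 (neg_le_neg a2)
    have e : z * -(δ • (1 : A)) + -(z' * δ • (1 : A)) = -(δ • (1 : A)) := by
      rw [mul_neg, mul_smul_comm, mul_smul_comm, mul_one, mul_one, ← neg_add, ← smul_add,
        hz'def, add_sub_cancel]
    rw [e, ← sub_eq_add_neg] at a3
    exact a3
  have l2 : h' ≤ δ • P := by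
    have a1 := cmul_mono hz hzz hzc hA'
    have a2 := cmul_mono hz' hz'z' hz'c hB
    have a3 := add_le_add a1 a2
    rw [mul_neg, ← sub_eq_add_neg, mul_smul_comm, mul_smul_comm, ← smul_add] at a3
    exact a3
  obtain ⟨u, hu1, hu2, hu3, hu4⟩ := F06.step0 hδ0 hPs hPP l1 l2 hVV hPV'
  -- the central symmetry
  set s : A := z - z' with hsdef
  have hs : star s = s := by rw [hsdef, star_sub, hz, hz']
  have hss : s * s = 1 := by
    have e : s * s = z * z - z * z' - z' * z + z' * z' := by rw [hsdef]; noncomm_ring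
    rw [e, hzz, hzz', hz'z, hz'z', sub_zero, sub_zero, hz'def, add_sub_cancel]
  have hsc : ∀ a, s * a = a * s := by
    intro a
    rw [hsdef, sub_mul, mul_sub, hzc a, hz'c a]
  have hsh : h' = s * h := by
    rw [hh', hsdef]
    exact (sub_mul z z' h).symm
  have hsnorm : ‖s‖ ≤ 1 := by
    have e1 : ‖s‖ * ‖s‖ = 1 := by
      rw [← CStarRing.norm_star_mul_self, hs, hss, norm_one]
    nlinarith [norm_nonneg s]
  set y : A := (2 : ℝ)⁻¹ • (h' + u * h' * u) with hy
  have hyx : (2 : ℝ)⁻¹ • (h + u * h * u) = s * y := by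
    rw [hy, mul_smul_comm]
    congr 1
    rw [hsh, mul_add, ← mul_assoc s s h, hss, one_mul]
    congr 1
    calc u * h * u = u * (s * s * h) * u := by rw [hss, one_mul]
      _ = (u * s) * (s * h) * u := by noncomm_ring
      _ = s * (u * (s * h) * u) := by rw [← hsc u]; noncomm_ring
  have hyself : IsSelfAdjoint y := by
    have h'self : IsSelfAdjoint h' := by
      rw [hsh]
      show star (s * h) = s * h
      rw [star_mul, hs, hh.star_eq, hsc]
    apply IsSelfAdjoint.smul (IsSelfAdjoint.all _)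
    apply h'self.add
    have := h'self.conjugate u
    rwa [hu1] at this
  have hyn : ‖y + (δ / 4) • (1 : A)‖ ≤ 3 / 4 * δ := by
    apply norm_le_of
    · exact hyself.add ((IsSelfAdjoint.all (δ / 4)).smul (IsSelfAdjoint.one A))
    · calc -((3 / 4 * δ) • (1 : A)) = -(δ • (1 : A)) + (δ / 4) • (1 : A) := by
            rw [← neg_smul, ← neg_smul, ← add_smul]; congr 1; ring
        _ ≤ _ := add_le_add_left hu3 _
    · calc y + (δ / 4) • (1 : A) ≤ (δ / 2) • (1 : A) + (δ / 4) • (1 : A) :=
            add_le_add_left hu4 _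
        _ = _ := by rw [← add_smul]; congr 1; ring
    · positivity
  refine ⟨u, hu1, hu2, -((δ / 4) • s), ?_, ?_, ?_⟩
  · rw [star_neg, star_smul, hs, star_trivial]
  · intro b
    rw [neg_mul, mul_neg, smul_mul_assoc, mul_smul_comm, hsc b]
  · have e : (2 : ℝ)⁻¹ • (h + u * h * u) - -((δ / 4) • s) = s * (y + (δ / 4) • (1 : A)) := by
      rw [hyx, sub_neg_eq_add, mul_add, mul_smul_comm (δ / 4) s (1 : A), mul_one]
    rw [e]
    calc ‖s * (y + (δ / 4) • (1 : A))‖ ≤ ‖s‖ * ‖y + (δ / 4) • (1 : A)‖ := norm_mul_le _ _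
      _ ≤ 1 * (3 / 4 * δ) := mul_le_mul hsnorm hyn (norm_nonneg _) (by norm_num)
      _ = 3 / 4 * δ := one_mul _

end XstepAux

theorem prove_X_step (h1 : X_comp.{u}) : X_step.{u} := by
  intro H _ _ _ M a haM ha
  let _ := CStarAlgebra.spectralOrder M.toStarSubalgebra
  have _ := CStarAlgebra.spectralOrderedRing M.toStarSubalgebra
  have hself : IsSelfAdjoint (⟨a, haM⟩ : M.toStarSubalgebra) := Subtype.ext ha
  have HR : ∀ b : M.toStarSubalgebra, ∃ p : M.toStarSubalgebra, star p = p ∧ p * p = p ∧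
      p * b = b ∧ ∀ x : M.toStarSubalgebra, x * b = 0 → x * p = 0 := by
    rintro ⟨b, hb⟩
    obtain ⟨p, hpM, ⟨hp1, hp2⟩, hp3, hp4⟩ := prove5_range H M b hb
    refine ⟨⟨p, hpM⟩, Subtype.ext hp1, Subtype.ext hp2, Subtype.ext hp3, ?_⟩
    rintro ⟨x, hx⟩ h
    exact Subtype.ext (hp4 x (congrArg Subtype.val h))
  have HC : ∀ p q : M.toStarSubalgebra, star p = p → p * p = p → star q = q → q * q = q →
      ∃ z v w : M.toStarSubalgebra, star z = z ∧ z * z = z ∧ (∀ a, z * a = a * z) ∧
        star v * v = z * p ∧ z * q * v = v ∧ star w * w = (1 - z) * q ∧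
        (1 - z) * p * w = w := by
    rintro ⟨p, hp⟩ ⟨q, hq⟩ hp1 hp2 hq1 hq2
    obtain ⟨z, ⟨⟨hz1, hz2⟩, hzM, hzc⟩, v, hvM, w, hwM, hv1, hv2, hw1, hw2⟩ := h1 H M p hp q hq
      ⟨congrArg Subtype.val hp1, congrArg Subtype.val hp2⟩
      ⟨congrArg Subtype.val hq1, congrArg Subtype.val hq2⟩
    exact ⟨⟨z, hzM⟩, ⟨v, hvM⟩, ⟨w, hwM⟩, Subtype.ext hz1, Subtype.ext hz2,
      fun b => Subtype.ext (hzc b.1 b.2), Subtype.ext hv1, Subtype.ext hv2, Subtype.ext hw1,
      Subtype.ext hw2⟩
  obtain ⟨u, hu1, hu2, c, hc1, hc2, hc3⟩ := XstepAux.xstep (A := M.toStarSubalgebra) HR HC hself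
  have h2 : star (u : H →L[ℂ] H) = u := congrArg Subtype.val hu1
  have h3 : (u : H →L[ℂ] H) * u = 1 := congrArg Subtype.val hu2
  refine ⟨(u : H →L[ℂ] H), u.2, by rw [h2]; exact h3, by rw [h2]; exact h3, (c : H →L[ℂ] H),
    ⟨c.2, fun b hb => congrArg Subtype.val (hc2 ⟨b, hb⟩)⟩, congrArg Subtype.val hc1, ?_⟩
  rw [h2]
  have e : ‖(2 : ℂ)⁻¹ • (a + (u : H →L[ℂ] H) * a * u) - (c : H →L[ℂ] H)‖ =
      ‖(2 : ℝ)⁻¹ • ((⟨a, haM⟩ : M.toStarSubalgebra) + u * ⟨a, haM⟩ * u) - c‖ := by
    have e2 : (2 : ℂ)⁻¹ = (((2 : ℝ)⁻¹ : ℝ) : ℂ) := by norm_num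
    rw [e2, Complex.coe_smul]
    rfl
  rw [e]
  exact hc3

end H744R2.KZ
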